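import Pool.Agent.KS6_82.WD.G

/-!
# The WDGA with constant weakness: every Hilbert space can be renormed so that it fails

The notions used below (in `Pool.Agent.KS6_82.WD.B`):
* `modulus X u`: the modulus of smoothness of `X`; `PowerType X p`: `modulus X u ≤ γ u ^ p` for all
  `u > 0`, for some `γ`; `UniformlySmooth X`: `modulus X u / u → 0` as `u → 0+`;
* `IsDictionary D`: `‖g‖ ≤ 1` and `-g ∈ D` for all `g ∈ D`, and the span of `D` is dense;
* `IsRun t D f r`: `r` is the sequence of residuals of an admissible run of the WDGA(`t`) with the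
  dictionary `D` started at `f`;
* `ConvergesFor t D f`: the norms of the residuals tend to `0` for every admissible run of the
  WDGA(`t`) started at `f`;
* `Fails ε X`: there are a dictionary `D` of unit vectors of `X`, a unit vector `f` and one sequence
  `r` with `‖r m‖ ≥ 1 - ε` for all `m` which, for all `t ∈ (0, 1]` at once, is the sequence of
  residuals of an admissible run of the WDGA(`t`) started at `f`; in particular the WDGA(`t`) does
  not converge for `f`, for any `t ∈ (0, 1]`.
-/

set_option autoImplicit false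

universe u

namespace Pool.Agent.Results.MP_ecafc5_an.EveryHilbertSpace

open Pool.Agent.KS6_82.WD Pool.Agent.Y648.GR

/-- (1) Every infinite-dimensional real Hilbert space `H` (of any density character) has, for every
`ε > 0`, an equivalent norm (on the copy `X` of `H`) between `(1 - ε) ‖·‖` and `‖·‖` with modulus of
smoothness at most `√(1 + (1 + ε) u²) - 1` for which the WDGA fails.
(2) Let `1 < p ≤ 2`. Every Banach space `Y` whose modulus of smoothness has power type `p` is a
norm-one complemented subspace (even an `ℓ₂`-summand) of a Banach space `X` whose modulus of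
smoothness has power type `p`, for which the WDGA fails.
(3) In a finite-dimensional uniformly smooth space the WDGA(`t`) converges, for every `t`, every
dictionary and every `f`.
(4) Hence a real Hilbert space `H` is finite-dimensional if and only if the WDGA converges for every
equivalent uniformly smooth norm on `H`. -/
theorem result :
    (∀ (H : Type u) [NormedAddCommGroup H] [InnerProductSpace ℝ H] [CompleteSpace H],
      ¬ FiniteDimensional ℝ H → ∀ ε : ℝ, 0 < ε →
      ∃ (X : Type u) (_ : NormedAddCommGroup X) (_ : NormedSpace ℝ X) (T : H ≃ₗ[ℝ] X),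
        (∀ x, (1 - ε) * ‖x‖ ≤ ‖T x‖ ∧ ‖T x‖ ≤ ‖x‖) ∧ CompleteSpace X ∧
        (∀ u : ℝ, 0 < u → modulus X u ≤ Real.sqrt (1 + (1 + ε) * u ^ 2) - 1) ∧
        PowerType X 2 ∧ UniformlySmooth X ∧ Fails ε X) ∧
    (∀ p : ℝ, 1 < p → p ≤ 2 → ∀ (Y : Type u) [NormedAddCommGroup Y] [NormedSpace ℝ Y]
      [CompleteSpace Y], PowerType Y p → ∀ ε : ℝ, 0 < ε →
      ∃ (X : Type u) (_ : NormedAddCommGroup X) (_ : NormedSpace ℝ X) (J : Y →ₗᵢ[ℝ] X)
        (P : X →L[ℝ] Y), (∀ y, P (J y) = y) ∧ (∀ x, ‖x‖ ^ 2 = ‖P x‖ ^ 2 + ‖x - J (P x)‖ ^ 2) ∧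
        CompleteSpace X ∧ PowerType X p ∧ UniformlySmooth X ∧ Fails ε X) ∧
    (∀ (X : Type u) [NormedAddCommGroup X] [NormedSpace ℝ X] [FiniteDimensional ℝ X],
      UniformlySmooth X → ∀ t : ℝ, 0 < t → ∀ D : Set X, IsDictionary D → ∀ f : X,
        ConvergesFor t D f) ∧
    (∀ (H : Type u) [NormedAddCommGroup H] [InnerProductSpace ℝ H] [CompleteSpace H],
      FiniteDimensional ℝ H ↔
        ∀ (X : Type u) [NormedAddCommGroup X] [NormedSpace ℝ X] (_ : H ≃L[ℝ] X),
          UniformlySmooth X → ∀ t : ℝ, 0 < t → t ≤ 1 → ∀ D : Set X, IsDictionary D → ∀ f : X,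
            ConvergesFor t D f) := by
  refine ⟨fun H _ _ _ hH ε hε => hilbert_fails H hH ε hε, ?_,
    fun X _ _ _ hX t ht D hD f => finite_converges hX t ht D hD f, ?_⟩
  · intro p hp1 hp2 Y _ _ _ hY ε hε
    obtain ⟨n, hn⟩ := exists_nat_gt (1 / ε)
    obtain ⟨q, hq, hqn⟩ : ∃ q : ℕ, 4 ≤ q ∧ n ≤ q := ⟨max 4 n, le_max_left _ _, le_max_right _ _⟩
    have hc := cc_pos hq
    have hqε : cc q ≤ ε := by
      have h1 : (n : ℝ) ≤ q := by exact_mod_cast hqn
      have h2 : 1 / ε < q := lt_of_lt_of_le hn h1
      have h3 : (0 : ℝ) < q := lt_trans (by positivity) h2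
      rw [div_lt_iff₀ hε] at h2
      unfold cc
      rw [div_le_iff₀ h3]
      linarith
    have hpt := powerType_PX hq Y hp1 hp2 hY
    refine ⟨PX q Y, inferInstance, inferInstance, ⟨i2 Y q, norm_i2 Y⟩, WithLp.sndL 2 ℝ (XX q) Y,
      fun y => rfl, fun x => ?_, inferInstance, hpt, hpt.uniformlySmooth' hp1,
      fails_PX Y hq (by linarith)⟩
    have hdec : x - i2 Y q x.snd = i1 Y q x.fst := by
      apply (WithLp.equiv 2 _).injective
      apply Prod.ext
      · show x.fst - 0 = x.fst
        rw [sub_zero]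
      · show x.snd - x.snd = 0
        rw [sub_self]
    show ‖x‖ ^ 2 = ‖x.snd‖ ^ 2 + ‖x - i2 Y q x.snd‖ ^ 2
    rw [hdec, norm_i1, norm_sq_PX]; ring
  · intro H _ _ _
    constructor
    · intro hH X _ _ T hX t ht _ D hD f
      have : FiniteDimensional ℝ X := T.toLinearEquiv.finiteDimensional
      exact finite_converges hX t ht D hD f
    · intro h
      by_contra hH
      obtain ⟨X, i1, i2, T, hT, -, -, -, hus, D, hD, -, f, r, -, -, hr⟩ :=
        hilbert_fails H hH (1 / 2) (by norm_num)
      let T' : H ≃L[ℝ] X := T.toContinuousLinearEquivOfBounds 1 2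
        (fun x => by rw [one_mul]; exact (hT x).2)
        (fun x => by
          have h1 := (hT (T.symm x)).1
          rw [T.apply_symm_apply] at h1
          linarith)
      exact (hr 1 one_pos le_rfl).2 (h X T' hus 1 one_pos le_rfl D hD f)

end Pool.Agent.Results.MP_ecafc5_an.EveryHilbertSpace
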